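import Pool.Agent.PFC.StmtsB2

/-!
Squad PFC, row COU (helper57): the count.
-/

noncomputable section

namespace Pool.Agent.PFC.B2.H57

open Pool.Agent.PFC.B1

/-- the one-dimensional representation of `Γ` given by an augmentation -/
def chi (F Γ E L : Type) [Field F] [Ring Γ] [Algebra (PowerSeries F) Γ] [Group E] [Field L]
    [Algebra (PowerSeries F) L] (ed : Ed F Γ E) (θ : E →* Fˣ) : Rp (PowerSeries F) Γ L L where
  ρ := (algebraMap L (Module.End L L)).comp
    ((algebraMap (PowerSeries F) L).comp (ed.ag θ).toRingHom)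
  sc := fun r x => by
    have h : (ed.ag θ).toRingHom (algebraMap (PowerSeries F) Γ r) = r := (ed.ag θ).commutes r
    rw [RingHom.comp_apply, RingHom.comp_apply, h, Module.algebraMap_end_apply]

theorem chi_apply (F Γ E L : Type) [Field F] [Ring Γ] [Algebra (PowerSeries F) Γ] [Group E]
    [Field L] [Algebra (PowerSeries F) L] (ed : Ed F Γ E) (θ : E →* Fˣ) (γ : Γ) (x : L) :
    (chi F Γ E L ed θ).ρ γ x = algebraMap (PowerSeries F) L (ed.ag θ γ) * x := rfl

theorem chi_irr (F Γ E L : Type) [Field F] [Ring Γ] [Algebra (PowerSeries F) Γ] [Group E]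
    [Field L] [Algebra (PowerSeries F) L] (ed : Ed F Γ E) (θ : E →* Fˣ) :
    Irr (chi F Γ E L ed θ) :=
  ⟨inferInstance, fun W _ => eq_bot_or_eq_top W⟩

theorem chi_rk_one (F Γ E L : Type) [Field F] [Ring Γ] [Algebra (PowerSeries F) Γ] [Group E]
    [Field L] [Algebra (PowerSeries F) L] (ed : Ed F Γ E) (θ : E →* Fˣ) (γ : Γ)
    (h : ed.ag θ γ = 1) : rk (chi F Γ E L ed θ) γ = 1 := by
  have h1 : (chi F Γ E L ed θ).ρ γ = LinearMap.id := by
    apply LinearMap.ext; intro x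
    rw [chi_apply, h, map_one, one_mul]; rfl
  rw [rk, h1, LinearMap.range_id, finrank_top, Module.finrank_self]

theorem chi_rk_zero (F Γ E L : Type) [Field F] [Ring Γ] [Algebra (PowerSeries F) Γ] [Group E]
    [Field L] [Algebra (PowerSeries F) L] (ed : Ed F Γ E) (θ : E →* Fˣ) (γ : Γ)
    (h : ed.ag θ γ = 0) : rk (chi F Γ E L ed θ) γ = 0 := by
  have h1 : (chi F Γ E L ed θ).ρ γ = 0 := by
    apply LinearMap.ext; intro x
    rw [chi_apply, h, map_zero, zero_mul]; rfl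
  rw [rk, h1, LinearMap.range_zero, finrank_bot]

theorem cou (hbri : BriStmt) (hchr : ChrStmt) (hlat : LatStmt) (hspe : SpeStmt)
    (hrdf : RdfStmt) (hmul : MulStmt) (hhul : HulStmt) (hres : ResStmt) (hctr : CtrStmt)
    (hrki : RkiStmt) (hinv : InvStmt) (hlna : LnaStmt) : CouStmt := by
  intro F Γ A' A E I J L _ _ _ _ _ _ _ _ _ _ _ _ _ _ _ _ _ c d sp fb ed l n S p T hcomm hE hQ
    hS hT hdist
  classical
  obtain ⟨hfin, hcard, ee, hee, hag1, hag0⟩ := hchr F Γ E ed hcomm hE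
  obtain ⟨n0, S0, hS0⟩ := hbri F A
  obtain ⟨d0, hb, hb', -⟩ := hrdf F A' A J d fb
  choose T' iac imod ifin ifree τ' ι hinj hsm heqv hden using
    fun i => hlat F A' L (Fin (p i) → L) (T i)
  have hX : ∀ k : ℕ, algebraMap (PowerSeries F) L (PowerSeries.X ^ k) ≠ 0 := by
    intro k hk
    have h0 : (PowerSeries.X : PowerSeries F) ^ k = 0 := by
      apply IsFractionRing.injective (PowerSeries F) L
      rw [hk, map_zero]
    exact pow_ne_zero k PowerSeries.X_ne_zero h0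
  have gn : ∀ i, Gn (τ' i) (T i) := fun i =>
    { i := ι i
      inj := hinj i
      sm := hsm i
      eqv := heqv i
      den := fun t => by
        obtain ⟨k, x, h⟩ := hden i t
        exact ⟨PowerSeries.X ^ k, x, hX k, by rw [map_pow]; exact h⟩ }
  choose T0 i0ac i0mod i0fin τ0 sfn using fun i => hspe F A' A (T' i) fb (τ' i)
  have sf : ∀ i, Sf fb (τ' i) (τ0 i) := fun i => (sfn i).some
  choose m hm using fun i => hmul F A J F (Fin (ls F A)) (T0 i) d0 n0 S0 (τ0 i) hS0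
  choose mz hmz using fun i =>
    hmul (PowerSeries F) Γ I L (Fin l) (Fin (p i) → L) c n S ((T i).res sp.j) hS
  choose M iM1 iM2 iM3 μ hμ hf hother using
    fun i => hhul (PowerSeries F) A' J L (Fin (p i) → L) d (T i) (hT i)
  choose q hq using fun i0 => hctr F Γ A' A I J (Fin (ls F A)) L (M i0) c d sp fb d0 n0 S0
    (μ i0) hb hb' hQ (hμ i0)
  choose g hg using fun θ => hS L (chi F Γ E L ed θ) (chi_irr F Γ E L ed θ)
  haveI : Fintype (E →* Fˣ) := Fintype.ofFinite _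
  have hδ : ∀ i, (hd (T i) (μ i) : ℚ) ≠ 0 := by
    intro i
    obtain ⟨f, hf1, hf2⟩ := hf i
    have hne : hd (T i) (μ i) ≠ 0 := by
      intro h0
      have : Hm (T i) (μ i) = ⊥ := Submodule.finrank_eq_zero.mp h0
      have hm' : f ∈ Hm (T i) (μ i) := hf1
      rw [this, Submodule.mem_bot] at hm'
      exact hf2 hm'
    exact_mod_cast hne
  have hz : ∀ i0 i, i ≠ i0 → hd (T i) (μ i0) = 0 := by
    intro i0 i hi
    have : Hm (T i) (μ i0) = ⊥ := by
      rw [eq_bot_iff]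
      intro f hf'
      rw [Submodule.mem_bot]
      refine hother i0 (Fin (p i) → L) (T i) (hT i) (fun h => hi ?_) f hf'
      exact (hdist i0 i h).symm
    rw [hd, this, finrank_bot]
  have hkey := hlna (Fin l) (Fin (ls F A)) (E →* Fˣ)
    (fun s i => (mz i s : ℚ)) (fun j i => (m i j : ℚ))
    (fun i0 s => (hd (S s) ((μ i0).res sp.j) : ℚ)) (fun i0 j => (q i0 j : ℚ))
    (fun i => (hd (T i) (μ i) : ℚ)) (fun ψ s => (rk (S s) (ee ψ) : ℚ))
    (fun ψ j => (rk (S0 j) (fb.q (sp.j (ee ψ))) : ℚ)) g hδ ?_ ?_ ?_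
  · rw [← hcard, Nat.card_eq_fintype_card]
    simpa using hkey
  · intro i0 i
    have h1 := (hmz i).hom (M i0) ((μ i0).res sp.j) (hres _ _ _ _ _ _ _ c d sp (μ i0) (hμ i0))
    have h2 := hq i0 (T' i) (Fin (p i) → L) (T0 i) (τ' i) (T i) (τ0 i) (gn i) (sf i) (m i)
      (hm i)
    rw [h1] at h2
    have h3 : (hd (T i) (μ i0) : ℚ) = if i = i0 then (hd (T i0) (μ i0) : ℚ) else 0 := by
      by_cases h : i = i0
      · subst h; rw [if_pos rfl]
      · rw [if_neg h, hz i0 i h]; rfl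
    have h4 : (∑ s, (mz i s : ℚ) * (hd (S s) ((μ i0).res sp.j) : ℚ)) =
        (hd (T i) (μ i0) : ℚ) + ∑ j, (m i j : ℚ) * (q i0 j : ℚ) := by
      exact_mod_cast h2.symm
    rw [h3] at h4
    simpa [mul_comm] using h4
  · intro ψ i
    have he : sp.j (ee ψ) * sp.j (ee ψ) = sp.j (ee ψ) := by rw [← map_mul, hee]
    have h1 := hrki F A' A L (T' i) (Fin (p i) → L) (T0 i) fb (τ' i) (T i) (τ0 i) (gn i) (sf i)
      (sp.j (ee ψ)) he
    have he' : fb.q (sp.j (ee ψ)) * fb.q (sp.j (ee ψ)) = fb.q (sp.j (ee ψ)) := by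
      rw [← map_mul, he]
    have h2 := (hm i).rnk (fb.q (sp.j (ee ψ))) he'
    have h3 := (hmz i).rnk (ee ψ) (hee ψ)
    have h4 : rk ((T i).res sp.j) (ee ψ) = rk (T i) (sp.j (ee ψ)) := rfl
    rw [h4, h1, h2] at h3
    have h5 : (∑ j, (m i j : ℚ) * (rk (S0 j) (fb.q (sp.j (ee ψ))) : ℚ)) =
        ∑ s, (mz i s : ℚ) * (rk (S s) (ee ψ) : ℚ) := by
      exact_mod_cast h3
    simpa [mul_comm] using h5.symm
  · intro ψ ψ'
    have h1 := (hinv (PowerSeries F) Γ L L (Fin (n (g ψ')) → L) L Unit (chi F Γ E L ed ψ')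
      (S (g ψ')) (chi F Γ E L ed ψ') (hg ψ')).2.2.2.1 (ee ψ)
    show (rk (S (g ψ')) (ee ψ) : ℚ) = if ψ = ψ' then 1 else 0
    rw [← h1]
    by_cases h : ψ = ψ'
    · subst h
      rw [if_pos rfl, chi_rk_one F Γ E L ed ψ (ee ψ) (hag1 ψ)]
      exact Nat.cast_one
    · rw [if_neg h, chi_rk_zero F Γ E L ed ψ' (ee ψ) (hag0 ψ ψ' h)]
      exact Nat.cast_zero

end Pool.Agent.PFC.B2.H57
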